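import Pool.Agent.N24.RW.Stm

/-! # Coordinates which are divisible exactly once by a prime of a given set -/

set_option autoImplicit false

namespace Pool.Agent.N999.ORB

open Pool.Agent.N24.RW

/-- the residues modulo `p ^ 2` which are divisible by `p` but not zero -/
def Sp (p : ℕ) : Set (ZMod (p ^ 2)) := {t | t * (p : ZMod (p ^ 2)) = 0 ∧ t ≠ 0}

lemma mem_Sp {p : ℕ} (hp : p.Prime) (c : ℤ) :
    (c : ZMod (p ^ 2)) ∈ Sp p ↔ (p : ℤ) ∣ c ∧ ¬ (p : ℤ) ^ 2 ∣ c := by
  have hp0 : (p : ℤ) ≠ 0 := by exact_mod_cast hp.ne_zero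
  have h1 : (c : ZMod (p ^ 2)) * (p : ZMod (p ^ 2)) = 0 ↔ (p : ℤ) ∣ c := by
    have e : (c : ZMod (p ^ 2)) * (p : ZMod (p ^ 2)) = ((c * p : ℤ) : ZMod (p ^ 2)) := by
      push_cast
      rfl
    rw [e, ZMod.intCast_zmod_eq_zero_iff_dvd]
    push_cast
    rw [pow_two]
    exact mul_dvd_mul_iff_right hp0
  have h2 : (c : ZMod (p ^ 2)) ≠ 0 ↔ ¬ (p : ℤ) ^ 2 ∣ c := by
    rw [Ne, ZMod.intCast_zmod_eq_zero_iff_dvd]
    push_cast
    rfl
  exact and_congr h1 h2

lemma card_Sp {p : ℕ} (hp : p.Prime) : p - 1 ≤ (Sp p).ncard := by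
  classical
  have : NeZero (p ^ 2) := ⟨pow_ne_zero 2 hp.ne_zero⟩
  have h1 : ((Finset.Ico 1 p).image fun t : ℕ => ((t * p : ℕ) : ZMod (p ^ 2))).card = p - 1 := by
    rw [Finset.card_image_of_injOn, Nat.card_Ico]
    intro a ha b hb hab
    have ha' := Finset.mem_Ico.1 ha
    have hb' := Finset.mem_Ico.1 hb
    have hab' : ((a * p : ℕ) : ZMod (p ^ 2)) = ((b * p : ℕ) : ZMod (p ^ 2)) := hab
    rw [ZMod.natCast_eq_natCast_iff'] at hab'
    have l1 : a * p < p ^ 2 := by
      rw [pow_two]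
      exact Nat.mul_lt_mul_of_pos_right ha'.2 hp.pos
    have l2 : b * p < p ^ 2 := by
      rw [pow_two]
      exact Nat.mul_lt_mul_of_pos_right hb'.2 hp.pos
    rw [Nat.mod_eq_of_lt l1, Nat.mod_eq_of_lt l2] at hab'
    exact Nat.eq_of_mul_eq_mul_right hp.pos hab'
  rw [← h1, ← Set.ncard_coe_finset]
  refine Set.ncard_le_ncard ?_ (Set.toFinite _)
  intro x hx
  obtain ⟨t, ht, rfl⟩ := Finset.mem_image.1 (Finset.mem_coe.1 hx)
  have ht' := Finset.mem_Ico.1 ht
  have e : ((t * p : ℕ) : ZMod (p ^ 2)) = (((t * p : ℕ) : ℤ) : ZMod (p ^ 2)) := by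
    push_cast
    rfl
  rw [e, mem_Sp hp]
  push_cast
  refine ⟨dvd_mul_left _ _, fun h => ?_⟩
  rw [pow_two] at h
  have h3 : (p : ℤ) ∣ t := (mul_dvd_mul_iff_right (by exact_mod_cast hp.ne_zero)).1 h
  have h4 : p ∣ t := by exact_mod_cast h3
  have h5 := Nat.le_of_dvd (by omega) h4
  omega

/-- vectors with one coordinate in a given set -/
lemma card_coord {ι : Type} [Fintype ι] [DecidableEq ι] {R : Type} [Fintype R] (l : ι)
    (S : Set R) : S.ncard * Fintype.card R ^ (Fintype.card ι - 1) ≤ {x : ι → R | x l ∈ S}.ncard := by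
  classical
  have e : {x : ι → R | x l ∈ S} = ↑(Fintype.piFinset fun i : ι =>
      if i = l then S.toFinset else (Finset.univ : Finset R)) := by
    ext x
    rw [Finset.mem_coe, Fintype.mem_piFinset]
    constructor
    · intro h i
      by_cases hi : i = l
      · rw [if_pos hi, hi, Set.mem_toFinset]
        exact h
      · rw [if_neg hi]
        exact Finset.mem_univ _
    · intro h
      have h1 := h l
      rw [if_pos rfl, Set.mem_toFinset] at h1
      exact h1
  rw [e, Set.ncard_coe_finset, Fintype.card_piFinset, ← Finset.mul_prod_erase _ _ (Finset.mem_univ l),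
    if_pos rfl, Set.ncard_eq_toFinset_card']
  refine Nat.mul_le_mul_left _ (le_of_eq ?_)
  rw [Finset.prod_congr rfl fun i hi => by rw [if_neg (Finset.ne_of_mem_erase hi)],
    Finset.prod_const, Finset.card_erase_of_mem (Finset.mem_univ l), Finset.card_univ,
    Finset.card_univ]

/-- Outside a pronull set the coordinate `l` is divisible exactly once by a prime of the set `Ps`. -/
theorem pronull_once (hC : S_CRIT) {ι : Type} [Fintype ι] [DecidableEq ι] (l : ι) (Ps : Set ℕ)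
    (hdiv : ¬ Summable (fun n : ℕ => Ps.indicator (fun n : ℕ => (1 : ℝ) / n) n))
    (hPs : ∀ p ∈ Ps, p.Prime) :
    ProNull {c : ι → ℤ | ¬ ∃ p ∈ Ps, (p : ℤ) ∣ c l ∧ ¬ (p : ℤ) ^ 2 ∣ c l} := by
  classical
  have h := hC ι (fun p => p ^ 2) (fun p hp => Nat.one_le_iff_ne_zero.2 (pow_ne_zero 2 hp.ne_zero))
    (fun p p' hp hp' hne => Nat.Coprime.pow 2 2 ((Nat.coprime_primes hp hp').2 hne))
    (fun p => if p ∈ Ps then {x | x l ∈ Sp p} else ∅) 0
    (fun p => if p ∈ Ps then 1 / 2 * ((1 : ℝ) / p) else 0) (fun p => by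
      split_ifs
      · positivity
      · exact le_rfl) (fun hs => by
      apply hdiv
      have h1 := hs.mul_left 2
      refine h1.congr fun n => ?_
      by_cases hn : n ∈ Ps
      · rw [if_pos (hPs n hn), if_pos hn, Set.indicator_of_mem hn]
        ring
      · rw [Set.indicator_of_notMem hn, if_neg hn]
        simp) (fun p hp _ => by
      by_cases hn : p ∈ Ps
      · simp only [if_pos hn]
        have : NeZero (p ^ 2) := ⟨pow_ne_zero 2 hp.ne_zero⟩
        have h2 := card_coord (R := ZMod (p ^ 2)) l (Sp p)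
        rw [ZMod.card] at h2
        have h3 := card_Sp hp
        have h4 : (p - 1) * (p ^ 2) ^ (Fintype.card ι - 1) ≤ {x : ι → ZMod (p ^ 2) | x l ∈ Sp p}.ncard :=
          (Nat.mul_le_mul_right _ h3).trans h2
        have h5 : ((p : ℝ) - 1) * ((p : ℝ) ^ 2) ^ (Fintype.card ι - 1) ≤
            ({x : ι → ZMod (p ^ 2) | x l ∈ Sp p}.ncard : ℝ) := by
          have h6 := (Nat.cast_le (α := ℝ)).2 h4
          rw [Nat.cast_mul, Nat.cast_sub hp.one_lt.le, Nat.cast_one, Nat.cast_pow, Nat.cast_pow] at h6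
          exact h6
        refine le_trans ?_ h5
        have hc : 0 < Fintype.card ι := Fintype.card_pos_iff.2 ⟨l⟩
        obtain ⟨r, hr⟩ : ∃ r, Fintype.card ι = r + 1 := ⟨Fintype.card ι - 1, by omega⟩
        rw [hr, Nat.add_sub_cancel, pow_succ]
        have hp2 : (2 : ℝ) ≤ p := by exact_mod_cast hp.two_le
        have hp0 : (p : ℝ) ≠ 0 := by positivity
        push_cast
        have e : 1 / 2 * (1 / (p : ℝ)) * (((p : ℝ) ^ 2) ^ r * (p : ℝ) ^ 2) =
            ((p : ℝ) / 2) * ((p : ℝ) ^ 2) ^ r := by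
          field_simp
        rw [e]
        exact mul_le_mul_of_nonneg_right (by linarith) (by positivity)
      · simp only [if_neg hn]
        rw [zero_mul]
        positivity)
  convert h using 1
  ext c
  simp only [Set.mem_setOf_eq]
  constructor
  · intro h1 p hp _ h2
    by_cases hn : p ∈ Ps
    · rw [if_pos hn] at h2
      exact h1 ⟨p, hn, (mem_Sp hp (c l)).1 h2⟩
    · rw [if_neg hn] at h2
      exact h2
  · intro h1
    rintro ⟨p, hp, h2⟩
    have h3 := h1 p (hPs p hp) (hPs p hp).pos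
    rw [if_pos hp] at h3
    exact h3 ((mem_Sp (hPs p hp) (c l)).2 h2)

end Pool.Agent.N999.ORB
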