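import Pool.Agent.N999.ORB.Once
import Pool.Agent.N680.TH.Fin

/-! # Twists by one coordinate of a random orbit -/

set_option autoImplicit false

open Polynomial MeasureTheory Filter Topology

namespace Pool.Agent.N999.ORB

open Pool.Agent.N24.RW Pool.Agent.N680.TH

/-- subsets of pronull sets -/
theorem pronull_mono {ι : Type} [Fintype ι] {A B : Set (ι → ℤ)} (hAB : A ⊆ B) (hB : ProNull B) :
    ProNull A := by
  intro M hM ε hε
  obtain ⟨q, hq, hqM, h⟩ := hB M hM ε hε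
  refine ⟨q, hq, hqM, le_trans ?_ h⟩
  have : NeZero q := ⟨hq.ne'⟩
  exact_mod_cast Set.ncard_le_ncard (Set.image_mono hAB) (Set.toFinite _)

/-- sets of density zero -/
theorem tend_mono {P Q : ℕ → Prop} (h : ∀ n, P n → Q n)
    (hQ : Tendsto (fun N : ℕ => (({n : ℕ | n < N ∧ Q n}.ncard : ℕ) : ℝ) / (N : ℝ)) atTop (𝓝 0)) :
    Tendsto (fun N : ℕ => (({n : ℕ | n < N ∧ P n}.ncard : ℕ) : ℝ) / (N : ℝ)) atTop (𝓝 0) := by
  refine squeeze_zero (fun N => by positivity) (fun N => ?_) hQ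
  refine div_le_div_of_nonneg_right ?_ (Nat.cast_nonneg N)
  have h1 : {n : ℕ | n < N ∧ P n}.ncard ≤ {n : ℕ | n < N ∧ Q n}.ncard :=
    Set.ncard_le_ncard (fun n hn => ⟨hn.1, h n hn.2⟩)
      ((Set.finite_Iio N).subset fun n hn => hn.1)
  exact_mod_cast h1

/-- countably many sets of primes -/
theorem ae_once (hC : S_CRIT) (hM : S_MAIN) {ι : Type} [Fintype ι] [DecidableEq ι]
    (hι : 2 ≤ Fintype.card ι) (W : Walk ι) (v : ι → ℤ) (hv : v ≠ 0) {I : Type} [Countable I]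
    (Ps : I → Set ℕ) (hPs : ∀ i, ∀ p ∈ Ps i, p.Prime)
    (hdiv : ∀ i, ¬ Summable (fun n : ℕ => (Ps i).indicator (fun n : ℕ => (1 : ℝ) / n) n)) :
    ∀ᵐ w ∂(words W.m), ∀ (i : I) (l : ι), Tendsto (fun N : ℕ =>
      (({n : ℕ | n < N ∧ ¬ ∃ p ∈ Ps i, Once p (orb W v w n l)}.ncard : ℕ) : ℝ) / (N : ℝ)) atTop
        (𝓝 0) := by
  rw [ae_all_iff]
  intro i
  rw [ae_all_iff]
  intro l
  have h := hM ι hι W v hv {c : ι → ℤ | ¬ ∃ p ∈ Ps i, (p : ℤ) ∣ c l ∧ ¬ (p : ℤ) ^ 2 ∣ c l}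
    (pronull_once hC l (Ps i) (hdiv i) (hPs i))
  unfold AlmostNever at h
  filter_upwards [h] with w hw
  exact tend_mono (P := fun n => ¬ ∃ p ∈ Ps i, Once p (orb W v w n l))
    (Q := fun n => orb W v w n ∈ {c : ι → ℤ | ¬ ∃ p ∈ Ps i, (p : ℤ) ∣ c l ∧ ¬ (p : ℤ) ^ 2 ∣ c l})
    (fun n hn => hn) hw

/-- all families at once -/
theorem ae_fam (hC : S_CRIT) (hM : S_MAIN) {ι : Type} [Fintype ι] [DecidableEq ι]
    (hι : 2 ≤ Fintype.card ι) (W : Walk ι) (v : ι → ℤ) (hv : v ≠ 0) :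
    ∀ᵐ w ∂(words W.m), ∀ (ℓ j : ℕ) (g : ℤ[X]) (b : ℤ), Fam ℓ j g b → ∀ l : ι,
      Tendsto (fun N : ℕ => (({n : ℕ | n < N ∧
        ¬ ∃ p, GoodP ℓ j g b p ∧ Once p (orb W v w n l)}.ncard : ℕ) : ℝ) / (N : ℝ)) atTop (𝓝 0) := by
  have hcz := countable_poly
  have h := ae_once hC hM hι W v hv
    (fun q : {q : ℕ × ℕ × ℤ[X] × ℤ // Fam q.1 q.2.1 q.2.2.1 q.2.2.2} =>
      {p : ℕ | GoodP q.1.1 q.1.2.1 q.1.2.2.1 q.1.2.2.2 p}) (fun _ _ hp => hp.pr)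
    (fun q => good_diverges q.2)
  filter_upwards [h] with w hw
  intro ℓ j g b hF l
  have h1 := hw ⟨(ℓ, j, g, b), hF⟩ l
  exact tend_mono (P := fun n => ¬ ∃ p, GoodP ℓ j g b p ∧ Once p (orb W v w n l))
    (Q := fun n => ¬ ∃ p ∈ {p : ℕ | GoodP ℓ j g b p}, Once p (orb W v w n l))
    (fun n hn => hn) h1

/-- one family: the exceptional set is pronull -/
theorem pronull_fam (hC : S_CRIT) {ι : Type} [Fintype ι] [DecidableEq ι] (ℓ j : ℕ) (g : ℤ[X])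
    (b : ℤ) (hF : Fam ℓ j g b) (l : ι) :
    ProNull {c : ι → ℤ | ¬ ∃ p, GoodP ℓ j g b p ∧ Once p (c l)} :=
  pronull_once hC l {p : ℕ | GoodP ℓ j g b p} (good_diverges hF) fun _ hp => hp.pr

end Pool.Agent.N999.ORB
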